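import Pool.Agent.helper32.TRI.Spec

/-!
# Row tr:CN4 (MP_561ff4_al): opposite pairs with the same form value are conjugate
-/

set_option autoImplicit false

open Finset

namespace Pool.Agent.TRI

open Pool.Agent.EXC

theorem CN4_bt : ∀ j : Fin 6, (![-2, -1, 0, 0, 0, 1] : Fin 6 → ℤ) j = -2 → bt4 j = -th4 := by
  decide +kernel

theorem CN4 (hPR4 : PR4_stmt) : CN4_stmt := by
  intro F _ a b a' b' ha hb ha' hb' h0 hab
  have hmth : ip C4 (-th4) (-th4) = 2 := neg_root C4 th4_root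
  have key : ∀ x y : Lm C4 F, Ex C4 x → Ex C4 y → fm C4 x y ≠ 0 →
      ∃ g ∈ GE C4 F, g x = E C4 th4 ∧ g y = fm C4 x y • (E C4 (-th4) : Lm C4 F) := by
    intro x y hx hy hxy
    obtain ⟨m, -, -, hm⟩ := g4_PCL F x y hx hy
    obtain ⟨-, -, -, -, -, hf, -⟩ := g4_TPF F x y m hm
    have hm2 : m = -2 := hf.1 hxy
    obtain ⟨j, hj, g, hg, κ, -, h1, h2⟩ := hPR4 F x y m hm (by rw [hm2]; decide)
    rw [(bt4_spec j).2, hm2] at hj
    rw [CN4_bt j hj] at h2
    have h3 : fm C4 x y = κ := by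
      have h4 := ((g4_EXF F).1 g hg).fm x y
      rw [h1, h2, fm_smul_right, fm_E_E C4 th4_root hmth] at h4
      rw [← h4]
      simp
    exact ⟨g, hg, h1, by rw [h3, h2]⟩
  obtain ⟨g, hg, h1, h2⟩ := key a b ha hb h0
  obtain ⟨g', hg', h1', h2'⟩ := key a' b' ha' hb' (by rw [← hab]; exact h0)
  refine ⟨g'⁻¹ * g, mul_mem (inv_mem hg') hg, ?_, ?_⟩
  · rw [LinearEquiv.mul_apply, h1, ← h1']
    exact LinearEquiv.symm_apply_apply g' a'
  · rw [LinearEquiv.mul_apply, h2, hab, ← h2']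
    exact LinearEquiv.symm_apply_apply g' b'

end Pool.Agent.TRI
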